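import Pool.Agent.W518.PR.Stm

set_option autoImplicit false

open CategoryTheory Pool.Agent.H907R3 Pool.Agent.W518.PR

namespace Pool.Agent.W748.PRConc

variable {P : Type} [CommRing P]

lemma nat_d (K : ModCx P) (n : ℕ) : K.nat.d n (n + 1) = ModuleCat.ofHom (K.d n) := by
  unfold ModCx.nat
  simp

lemma exact_nat (K : ModCx P) (h : K.Pos) (n : ℕ) : K.nat.ExactAt (n + 1) := by
  rw [HomologicalComplex.exactAt_iff' K.nat n (n + 1) (n + 2) (by simp) (by simp)]
  rw [ShortComplex.moduleCat_exact_iff]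
  intro c hc
  have hc' : K.d (n + 1) c = 0 := by
    have h1 := hc
    change (K.nat.d (n + 1) (n + 2)).hom c = 0 at h1
    rw [nat_d] at h1
    exact h1
  obtain ⟨b, hb⟩ := h n c hc'
  refine ⟨b, ?_⟩
  change (K.nat.d n (n + 1)).hom b = c
  rw [nat_d]
  exact hb

noncomputable def hIso (K : ModCx P) :
    K.nat.homology 0 ≅ ModuleCat.of P (LinearMap.ker (K.d 0)) := by
  have e1 : K.nat.homology 0 ≅ K.nat.cycles 0 := (CochainComplex.isoHomologyπ₀ K.nat).symm
  have h0 := K.nat.cyclesIsKernel 0 1 (by simp)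
  have e2 : K.nat.cycles 0 ≅ (ModuleCat.kernelCone (K.nat.d 0 1)).pt :=
    h0.conePointUniqueUpToIso (ModuleCat.kernelIsLimit (K.nat.d 0 1))
  refine e1 ≪≫ e2 ≪≫ ?_
  have h1 : LinearMap.ker (K.nat.d 0 1).hom = LinearMap.ker (K.d 0) := by
    rw [nat_d K 0]; rfl
  exact (LinearEquiv.ofEq _ _ h1).toModuleIso

lemma isGE (K : ModCx P) : K.cx.IsGE 0 := by
  rw [CochainComplex.isGE_iff]
  intro i hi
  refine HomologicalComplex.extend_exactAt _ _ i ?_
  intro j hj
  have : ((j : ℕ) : ℤ) = i := hj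
  omega

lemma isLE (K : ModCx P) (h : K.Pos) : K.cx.IsLE 0 := by
  rw [CochainComplex.isLE_iff]
  intro i hi
  obtain ⟨n, rfl⟩ : ∃ n : ℕ, i = ((n + 1 : ℕ) : ℤ) := ⟨(i - 1).toNat, by omega⟩
  exact (HomologicalComplex.extend_exactAt_iff K.nat ComplexShape.embeddingUpNat
    (j := n + 1) (j' := ((n + 1 : ℕ) : ℤ)) rfl).2 (exact_nat K h n)

theorem main : S_conc := by
  intro P _ K hK hproj i hi
  let _ : HasDerivedCategory.{1} (ModuleCat.{0} P) := HasDerivedCategory.standard _
  change ∀ f : DerivedCategory.Q.obj K.cx ⟶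
    ((DerivedCategory.singleFunctor (ModuleCat.{0} P) 0).obj (ModuleCat.of P P))⟦i⟧, f = 0
  have := isGE K
  have := isLE K hK
  obtain ⟨Y, ⟨e⟩⟩ := (DerivedCategory.Q.obj K.cx).exists_iso_singleFunctor_obj_of_isGE_of_isLE 0
  have e1 : (DerivedCategory.homologyFunctor (ModuleCat.{0} P) 0).obj
      ((DerivedCategory.singleFunctor (ModuleCat.{0} P) 0).obj Y) ≅ Y :=
    (DerivedCategory.singleFunctorCompHomologyFunctorIso (ModuleCat.{0} P) 0).app Y
  have e2 := (DerivedCategory.homologyFunctor (ModuleCat.{0} P) 0).mapIso e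
  have e3 : (DerivedCategory.homologyFunctor (ModuleCat.{0} P) 0).obj
      (DerivedCategory.Q.obj K.cx) ≅ K.cx.homology 0 :=
    (DerivedCategory.homologyFunctorFactors (ModuleCat.{0} P) 0).app K.cx
  have e4 : K.cx.homology 0 ≅ K.nat.homology 0 :=
    K.nat.extendHomologyIso ComplexShape.embeddingUpNat (j := 0) (j' := 0) rfl
  have e5 : ModuleCat.of P (LinearMap.ker (K.d 0)) ≅ Y :=
    (hIso K).symm ≪≫ e4.symm ≪≫ e3.symm ≪≫ e2 ≪≫ e1
  have hp1 : Projective (ModuleCat.of P (LinearMap.ker (K.d 0))) :=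
    (IsProjective.iff_projective _).1 hproj
  have : Projective Y := Projective.of_iso e5 inferInstance
  intro f
  rw [← cancel_epi e.inv, Limits.comp_zero]
  rw [← cancel_mono (((DerivedCategory.singleFunctors (ModuleCat.{0} P)).shiftIso i (-i) 0
      (by omega)).hom.app _), Limits.zero_comp]
  exact DerivedCategory.from_singleFunctor_obj_eq_zero_of_projective
    (L := (CochainComplex.singleFunctor (ModuleCat.{0} P) (-i)).obj (ModuleCat.of P P))
    (n := -i) _ (by omega)

end Pool.Agent.W748.PRConc
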